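import Mathlib

/-!
# A rectifiable space of countable pseudocharacter which is not submetrizable

Consider the algebras with one binary operation and a unit `e` in which `x * (x * y) = y`,
`x * x = e` and `e * x = x` hold. In such an algebra `(x, y) ↦ (x, x * y)` is an involution which
maps `(x, x)` to `(x, e)`, so a topological algebra of this kind is a rectifiable space.

Let `I` be an infinite set. The space `G I` is the free algebra of this kind on the letters `d s t`
(`s`, `t` finite subsets of `I`; such a letter stands for the finite partial function with domain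
`s` which is true exactly on `s ∩ t`) and `a x` (`x` any subset of `I`, seen as a total function).
Its elements are the reduced words. A basic neighbourhood of a word `w` is given by a finite set
`F` and a finite set `S` of total functions which differ on `F`, such that every letter
of `w` is protected, that is, has its domain inside `F`, or is in `S`; it consists of all words
which can be collapsed to `w` by identifying letters `d s t` with `s` strictly larger than `F` with
letters `a x`, `x ∈ S`, which extend them, where subwords may first be collapsed with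
respect to larger `F` and `S`. The main point (theorem `key`) is that this closeness relation is
compatible with the product, although it is far from uniform: a letter `d s t` is
close to many different letters `a x`. Words all of whose letters have domains of at
most `n` elements do not collapse at all if `F` has `n` elements; hence `{e}` is a `G_δ`-set. All
letters `a x` are in the closure of the set of letters `d s t`; if `I` has the cardinality of the
continuum, then these are too many points for a submetrizable space.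
-/

namespace Pool.Agent.Results.MP_a8ba19_gt.NotSubmetrizable

open Set Topology

variable {I : Type}

/-- Words: `e` is the unit, `d s t` is the letter standing for the finite partial function with domain `s`
which is `true` exactly on `s ∩ t`, `a x` is the letter standing for the set `x`, and `n u v` is a product. -/
inductive W (I : Type) : Type
  | e : W I
  | d : Finset I → Finset I → W I
  | a : Set I → W I
  | n : W I → W I → W I

namespace W

/-- Reduced words. -/
def Red : W I → Prop
  | .e => True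
  | .d _ _ => True
  | .a _ => True
  | .n u v => Red u ∧ Red v ∧ u ≠ .e ∧ v ≠ .e ∧ u ≠ v ∧ ∀ t, v ≠ .n u t

/-- Weight. -/
def wt : W I → ℕ
  | .e => 0
  | .d _ _ => 2
  | .a _ => 1
  | .n u v => wt u + wt v + 1

/-- Every letter `d s t` in the word satisfies `p s`. -/
def AllD (p : Finset I → Prop) : W I → Prop
  | .e => True
  | .d s _ => p s
  | .a _ => True
  | .n u v => AllD p u ∧ AllD p v

/-- Every letter `a x` in the word satisfies `p x`. -/
def AllA (p : Set I → Prop) : W I → Prop
  | .e => True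
  | .d _ _ => True
  | .a x => p x
  | .n u v => AllA p u ∧ AllA p v

/-- Apply a map to the letters `a x`. -/
def map (f : Set I → Set I) : W I → W I
  | .e => .e
  | .d s t => .d s t
  | .a x => .a (f x)
  | .n u v => .n (map f u) (map f v)

open Classical in
/-- The product of words (used for reduced words). -/
noncomputable def mul (u v : W I) : W I :=
  if u = .e then v else if v = .e then u else if u = v then .e else
    match v with
    | .n u' t => if u' = u then t else .n u (.n u' t)
    | v => .n u v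

lemma n_ne_right (u v : W I) : W.n u v ≠ v := by
  intro h
  have := congrArg sizeOf h
  simp at this

lemma n_ne_left (u v : W I) : W.n u v ≠ u := by
  intro h
  have := congrArg sizeOf h
  simp at this
  omega

@[simp] lemma e_mul (v : W I) : mul .e v = v := by simp [mul]

@[simp] lemma mul_e (u : W I) : mul u .e = u := by
  by_cases h : u = .e <;> simp [mul, h]

@[simp] lemma mul_self (u : W I) : mul u u = .e := by
  by_cases h : u = .e <;> simp [mul, h]

lemma mul_n_self (u t : W I) (hu : u ≠ .e) : mul u (.n u t) = t := by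
  have h1 : u ≠ .n u t := fun h => n_ne_left u t h.symm
  simp [mul, hu, h1]

lemma mul_of_red {u v : W I} (h : Red (.n u v)) : mul u v = .n u v := by
  obtain ⟨_, _, h1, h2, h3, h4⟩ := h
  unfold mul
  rw [if_neg h1, if_neg h2, if_neg h3]
  cases v with
  | n u' t =>
    have : u' ≠ u := by
      rintro rfl
      exact h4 t rfl
    simp [this]
  | e => rfl
  | d s t => rfl
  | a x => rfl

lemma red_cases {u v : W I} (hu : Red u) (hv : Red v) :
    u = .e ∨ v = .e ∨ u = v ∨ (∃ t, v = .n u t) ∨ Red (.n u v) := by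
  by_cases h1 : u = .e
  · exact Or.inl h1
  by_cases h2 : v = .e
  · exact Or.inr (Or.inl h2)
  by_cases h3 : u = v
  · exact Or.inr (Or.inr (Or.inl h3))
  by_cases h4 : ∃ t, v = .n u t
  · exact Or.inr (Or.inr (Or.inr (Or.inl h4)))
  push Not at h4
  exact Or.inr (Or.inr (Or.inr (Or.inr ⟨hu, hv, h1, h2, h3, h4⟩)))

lemma red_mul {u v : W I} (hu : Red u) (hv : Red v) : Red (mul u v) := by
  rcases red_cases hu hv with h | h | h | ⟨t, h⟩ | h
  · subst h; simpa using hv
  · subst h; simpa using hu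
  · subst h; simp [Red]
  · subst h
    by_cases hue : u = .e
    · subst hue
      simpa using hv
    · rw [mul_n_self _ _ hue]
      exact hv.2.1
  · rw [mul_of_red h]; exact h

lemma mul_mul_cancel {u v : W I} (hu : Red u) (hv : Red v) : mul u (mul u v) = v := by
  rcases red_cases hu hv with h | h | h | ⟨t, h⟩ | h
  · subst h; simp
  · subst h; simp
  · subst h; simp
  · subst h
    have hue : u ≠ .e := hv.2.2.1
    rw [mul_n_self _ _ hue, mul_of_red hv]
  · rw [mul_of_red h, mul_n_self _ _ h.2.2.1]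

lemma wt_mul {u v : W I} (hu : Red u) (hv : Red v) :
    wt (mul u v) < wt u + wt v + 1 ∨ (mul u v = .n u v ∧ Red (.n u v)) := by
  rcases red_cases hu hv with h | h | h | ⟨t, h⟩ | h
  · subst h; left; simp [wt]
  · subst h; left; simp [wt]
  · subst h; left; simp [wt]
  · subst h
    left
    rw [mul_n_self _ _ hv.2.2.1]
    simp [wt]; omega
  · right; exact ⟨mul_of_red h, h⟩

lemma AllD.mul {p : Finset I → Prop} {u v : W I} (hu : Red u) (hv : Red v) (h1 : AllD p u)
    (h2 : AllD p v) : AllD p (mul u v) := by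
  rcases red_cases hu hv with h | h | h | ⟨t, h⟩ | h
  · subst h; simpa using h2
  · subst h; simpa using h1
  · subst h; simp [AllD]
  · subst h
    rw [mul_n_self _ _ hv.2.2.1]
    exact h2.2
  · rw [mul_of_red h]; exact ⟨h1, h2⟩

lemma AllA.mul {p : Set I → Prop} {u v : W I} (hu : Red u) (hv : Red v) (h1 : AllA p u)
    (h2 : AllA p v) : AllA p (mul u v) := by
  rcases red_cases hu hv with h | h | h | ⟨t, h⟩ | h
  · subst h; simpa using h2
  · subst h; simpa using h1
  · subst h; simp [AllA]
  · subst h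
    rw [mul_n_self _ _ hv.2.2.1]
    exact h2.2
  · rw [mul_of_red h]; exact ⟨h1, h2⟩

lemma AllD.imp {p q : Finset I → Prop} (hpq : ∀ s, p s → q s) : ∀ {w : W I}, AllD p w → AllD q w
  | .e, _ => trivial
  | .d _ _, h => hpq _ h
  | .a _, _ => trivial
  | .n _ _, h => ⟨AllD.imp hpq h.1, AllD.imp hpq h.2⟩

lemma AllA.imp {p q : Set I → Prop} (hpq : ∀ s, p s → q s) : ∀ {w : W I}, AllA p w → AllA q w
  | .e, _ => trivial
  | .d _ _, _ => trivial
  | .a _, h => hpq _ h
  | .n _ _, h => ⟨AllA.imp hpq h.1, AllA.imp hpq h.2⟩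

lemma AllA.and {p q : Set I → Prop} : ∀ {w : W I}, AllA p w → AllA q w → AllA (fun x => p x ∧ q x) w
  | .e, _, _ => trivial
  | .d _ _, _, _ => trivial
  | .a _, h, h' => ⟨h, h'⟩
  | .n _ _, h, h' => ⟨AllA.and h.1 h'.1, AllA.and h.2 h'.2⟩

lemma allA_of_forall {p : Set I → Prop} (hp : ∀ x, p x) : ∀ w : W I, AllA p w
  | .e => trivial
  | .d _ _ => trivial
  | .a _ => hp _
  | .n u v => ⟨allA_of_forall hp u, allA_of_forall hp v⟩

lemma map_congr {f g : Set I → Set I} : ∀ {w : W I}, AllA (fun x => f x = g x) w → map f w = map g w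
  | .e, _ => rfl
  | .d _ _, _ => rfl
  | .a x, h => by simp only [AllA] at h; simp [map, h]
  | .n u v, h => by simp [map, map_congr h.1, map_congr h.2]

lemma map_id' : ∀ w : W I, map (fun x => x) w = w
  | .e => rfl
  | .d _ _ => rfl
  | .a _ => rfl
  | .n u v => by simp [map, map_id' u, map_id' v]

lemma map_map (f g : Set I → Set I) : ∀ w : W I, map f (map g w) = map (fun x => f (g x)) w
  | .e => rfl
  | .d _ _ => rfl
  | .a _ => rfl
  | .n u v => by simp [map, map_map f g u, map_map f g v]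

lemma map_injective {f : Set I → Set I} (hf : Function.Injective f) :
    Function.Injective (map f : W I → W I) := by
  intro u
  induction u with
  | e => intro v h; cases v <;> simp_all [map]
  | d s t => intro v h; cases v <;> simp_all [map]
  | a x =>
    intro v h
    cases v <;> simp_all [map]
    exact hf h
  | n u1 u2 ih1 ih2 =>
    intro v h
    cases v with
    | n v1 v2 =>
      simp only [map, n.injEq] at h
      rw [ih1 h.1, ih2 h.2]
    | e => simp [map] at h
    | d s t => simp [map] at h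
    | a x => simp [map] at h

lemma map_eq_e {f : Set I → Set I} {w : W I} : map f w = .e ↔ w = .e := by
  cases w <;> simp [map]

lemma red_map {f : Set I → Set I} (hf : Function.Injective f) : ∀ {w : W I}, Red w → Red (map f w)
  | .e, _ => trivial
  | .d _ _, _ => trivial
  | .a _, _ => trivial
  | .n u v, ⟨h1, h2, h3, h4, h5, h6⟩ => by
    refine ⟨red_map hf h1, red_map hf h2, ?_, ?_, ?_, ?_⟩
    · rwa [Ne, map_eq_e]
    · rwa [Ne, map_eq_e]
    · exact fun h => h5 (map_injective hf h)
    · intro t ht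
      cases v with
      | n v1 v2 =>
        simp only [map, n.injEq] at ht
        have := map_injective hf ht.1
        subst this
        exact h6 v2 rfl
      | e => simp [map] at ht
      | d s t => simp [map] at ht
      | a x => simp [map] at ht

lemma map_mul {f : Set I → Set I} (hf : Function.Injective f) {u v : W I} (hu : Red u) (hv : Red v) :
    map f (mul u v) = mul (map f u) (map f v) := by
  rcases red_cases hu hv with h | h | h | ⟨t, h⟩ | h
  · subst h; simp [map]
  · subst h; simp [map]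
  · subst h; simp [map]
  · subst h
    have hue : u ≠ .e := hv.2.2.1
    have hue' : map f u ≠ .e := by rwa [Ne, map_eq_e]
    rw [mul_n_self _ _ hue]
    simp only [map]
    rw [mul_n_self _ _ hue']
  · rw [mul_of_red h, mul_of_red (u := map f u) (v := map f v)]
    · rfl
    · exact red_map hf h

lemma AllD_map {p : Finset I → Prop} {f : Set I → Set I} : ∀ {w : W I}, AllD p (map f w) ↔ AllD p w
  | .e => Iff.rfl
  | .d _ _ => Iff.rfl
  | .a _ => Iff.rfl
  | .n u v => by simp only [map, AllD]; rw [AllD_map (w := u), AllD_map (w := v)]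

lemma wt_pos {w : W I} (h : w ≠ .e) : 0 < wt w := by
  cases w <;> simp_all [wt]

end W

/-- Two sets agree on the finite set `F`. -/
def Agree (F : Finset I) (x y : Set I) : Prop := ∀ i ∈ F, (i ∈ x ↔ i ∈ y)

lemma Agree.refl (F : Finset I) (x : Set I) : Agree F x x := fun _ _ => Iff.rfl
lemma Agree.symm {F : Finset I} {x y : Set I} (h : Agree F x y) : Agree F y x :=
  fun i hi => (h i hi).symm
lemma Agree.trans {F : Finset I} {x y z : Set I} (h : Agree F x y) (h' : Agree F y z) :
    Agree F x z := fun i hi => (h i hi).trans (h' i hi)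
lemma Agree.mono {F F' : Finset I} {x y : Set I} (h : Agree F x y) (h' : F' ⊆ F) : Agree F' x y :=
  fun i hi => h i (h' hi)

/-- Parameters. -/
structure P (I : Type) where
  F : Finset I
  S : Set (Set I)
  inj : ∀ x ∈ S, ∀ y ∈ S, Agree F x y → x = y
  fin : S.Finite

/-- `θ'` is finer than `θ`. -/
def Fi (θ' θ : P I) : Prop := θ.F ⊆ θ'.F ∧ θ.S ⊆ θ'.S

lemma Fi.refl (θ : P I) : Fi θ θ := ⟨subset_rfl, subset_rfl⟩
lemma Fi.trans {θ θ' θ'' : P I} (h : Fi θ'' θ') (h' : Fi θ' θ) : Fi θ'' θ :=
  ⟨h'.1.trans h.1, h'.2.trans h.2⟩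

/-- All letters are protected by `θ`. -/
def InT (θ : P I) (w : W I) : Prop := W.AllD (fun s => s ⊆ θ.F) w ∧ W.AllA (fun x => x ∈ θ.S) w

lemma InT.n {θ : P I} {u v : W I} (h : InT θ (.n u v)) : InT θ u ∧ InT θ v :=
  ⟨⟨h.1.1, h.2.1⟩, ⟨h.1.2, h.2.2⟩⟩

lemma InT.mul {θ : P I} {u v : W I} (hu : W.Red u) (hv : W.Red v) (h1 : InT θ u) (h2 : InT θ v) :
    InT θ (W.mul u v) := ⟨W.AllD.mul hu hv h1.1 h2.1, W.AllA.mul hu hv h1.2 h2.2⟩

/-- The closeness relation. -/
inductive C : P I → W I → W I → Prop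
  | refl (θ : P I) (w : W I) : W.Red w → InT θ w → C θ w w
  | soft (θ : P I) (s t : Finset I) (x : Set I) : θ.F ⊂ s → x ∈ θ.S → Agree s x (t : Set I) →
      C θ (.d s t) (.a x)
  | node (θ θ' : P I) (u v s r b : W I) : Fi θ' θ → W.Red (.n u v) → C θ' u s → C θ' v r →
      C θ (W.mul s r) b → C θ (.n u v) b

namespace C

lemma red_left {θ : P I} {w v : W I} (h : C θ w v) : W.Red w := by
  cases h with
  | refl _ _ h _ => exact h
  | soft => exact trivial
  | node _ _ _ _ _ _ _ _ h => exact h

lemma red_right {θ : P I} {w v : W I} (h : C θ w v) : W.Red v := by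
  induction h with
  | refl _ _ h _ => exact h
  | soft => exact trivial
  | node _ _ _ _ _ _ _ _ _ _ _ _ _ _ ih => exact ih

lemma inT {θ : P I} {w v : W I} (h : C θ w v) : InT θ v := by
  induction h with
  | refl _ _ _ h => exact h
  | soft _ _ _ _ _ h _ => exact ⟨trivial, h⟩
  | node _ _ _ _ _ _ _ _ _ _ _ _ _ _ ih => exact ih

lemma allD {p : Finset I → Prop} {θ : P I} {w v : W I} (h : C θ w v) (hp : W.AllD p w) :
    W.AllD p v := by
  induction h with
  | refl _ _ _ h => exact hp
  | soft _ _ _ _ _ h _ => exact trivial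
  | node θ θ' u v s r b _ _ h1 h2 _ ih1 ih2 ih =>
    exact ih (W.AllD.mul h1.red_right h2.red_right (ih1 hp.1) (ih2 hp.2))

lemma wt_lt {θ : P I} {w v : W I} (h : C θ w v) : W.wt v < W.wt w ∨ v = w := by
  induction h with
  | refl => exact Or.inr rfl
  | soft => left; simp [W.wt]
  | node θ θ' u v s r b _ hr h1 h2 _ ih1 ih2 ih =>
    have key : W.wt (W.mul s r) < W.wt (.n u v) ∨ W.mul s r = .n u v := by
      rcases W.wt_mul h1.red_right h2.red_right with h | ⟨h, h'⟩
      · left
        simp only [W.wt]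
        rcases ih1 with i1 | i1 <;> rcases ih2 with i2 | i2
        · omega
        · rw [i2] at h ⊢; omega
        · rw [i1] at h ⊢; omega
        · rw [i1, i2] at h ⊢; omega
      · rcases ih1 with i1 | i1 <;> rcases ih2 with i2 | i2
        · left; rw [h]; simp only [W.wt]; omega
        · left; rw [h]; subst i2; simp only [W.wt]; omega
        · left; rw [h]; subst i1; simp only [W.wt]; omega
        · right; rw [h, i1, i2]
    rcases ih with i | i
    · left
      rcases key with k | k
      · exact i.trans k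
      · rwa [k] at i
    · rw [i]; exact key

lemma wt_le {θ : P I} {w v : W I} (h : C θ w v) : W.wt v ≤ W.wt w := by
  rcases h.wt_lt with h | h
  · exact h.le
  · rw [h]

/-- If no letter is soft then nothing moves. -/
lemma triv {θ : P I} {w v : W I} (h : C θ w v) (hw : W.AllD (fun s => ¬ θ.F ⊂ s) w) : v = w := by
  induction h with
  | refl => rfl
  | soft _ s t x h1 => exact absurd h1 hw
  | node θ θ' u v s r b hf hr h1 h2 _ ih1 ih2 ih =>
    have hmono : ∀ s : Finset I, ¬ θ.F ⊂ s → ¬ θ'.F ⊂ s :=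
      fun s hs h => hs (lt_of_le_of_lt hf.1 h)
    have e1 := ih1 (hw.1.imp hmono)
    have e2 := ih2 (hw.2.imp hmono)
    subst e1 e2
    rw [W.mul_of_red hr] at ih
    exact ih hw

lemma e_left {θ : P I} {v : W I} (h : C θ .e v) : v = .e := by
  cases h; rfl

lemma a_left {θ : P I} {x : Set I} {v : W I} (h : C θ (.a x) v) : v = .a x ∧ x ∈ θ.S := by
  cases h with
  | refl _ _ _ h => exact ⟨rfl, h.2⟩

lemma d_left {θ : P I} {s t : Finset I} {v : W I} (h : C θ (.d s t) v) :
    (v = .d s t ∧ s ⊆ θ.F) ∨ ∃ x, v = .a x ∧ θ.F ⊂ s ∧ x ∈ θ.S ∧ Agree s x (t : Set I) := by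
  cases h with
  | refl _ _ _ h => exact Or.inl ⟨rfl, h.1⟩
  | soft _ _ _ x h1 h2 h3 => exact Or.inr ⟨x, rfl, h1, h2, h3⟩

lemma trans {θ θ' : P I} {w w1 v : W I} (h : C θ' w w1) (hf : Fi θ' θ) (h' : C θ w1 v) :
    C θ w v := by
  induction h generalizing v with
  | refl => exact h'
  | soft θ' s t x h1 h2 h3 =>
    obtain ⟨rfl, hx⟩ := h'.a_left
    exact .soft _ _ _ _ (lt_of_le_of_lt hf.1 h1) hx h3
  | node θ' θ'' u v' s r b hf' hr h1 h2 _ ih1 ih2 ih =>
    exact .node _ θ'' _ _ s r _ (hf'.trans hf) hr h1 h2 (ih hf h')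

lemma inv_n {θ : P I} {w b : W I} (h : C θ w b) : ∀ {u v : W I}, w = .n u v →
    (b = .n u v ∧ InT θ (.n u v)) ∨ ∃ (θ' : P I) (s r : W I), Fi θ' θ ∧ C θ' u s ∧ C θ' v r ∧
      C θ (W.mul s r) b ∧ W.wt (W.mul s r) < W.wt (.n u v) := by
  induction h with
  | refl _ _ _ h => rintro u v rfl; exact Or.inl ⟨rfl, h⟩
  | soft => rintro u v h; cases h
  | node θ θ' u0 v0 s r b hf hr h1 h2 h3 ih1 ih2 ih =>
    rintro u v h
    obtain ⟨rfl, rfl⟩ := W.n.inj h
    by_cases hq : W.mul s r = .n u0 v0
    · exact ih hq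
    · right
      refine ⟨θ', s, r, hf, h1, h2, h3, ?_⟩
      have h4 : C θ' (.n u0 v0) (W.mul s r) :=
        .node _ θ' _ _ s r _ (Fi.refl _) hr h1 h2 (.refl _ _ (W.red_mul h1.red_right h2.red_right)
          (InT.mul h1.red_right h2.red_right h1.inT h2.inT))
      rcases h4.wt_lt with h | h
      · exact h
      · exact absurd h hq

end C


/-- Maps of sets which do not change the trace on `F`. -/
def Pres (F : Finset I) (f : Set I → Set I) : Prop := ∀ x, Agree F (f x) x

lemma Pres.mono {F F' : Finset I} {f : Set I → Set I} (h : Pres F f) (h' : F' ⊆ F) : Pres F' f :=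
  fun x => (h x).mono h'

lemma Pres.symm {F : Finset I} {f : Equiv.Perm (Set I)} (h : Pres F f) : Pres F f.symm := by
  intro x
  have := h (f.symm x)
  rw [Equiv.apply_symm_apply] at this
  exact this.symm

/-- The renamed parameter. -/
def ren (f : Set I → Set I) (θ : P I) (h : Pres θ.F f) : P I where
  F := θ.F
  S := f '' θ.S
  inj := by
    rintro _ ⟨x, hx, rfl⟩ _ ⟨y, hy, rfl⟩ hxy
    rw [θ.inj x hx y hy (((h x).symm.trans hxy).trans (h y))]
  fin := θ.fin.image f

lemma P.ext' {θ θ' : P I} (h1 : θ.F = θ'.F) (h2 : θ.S = θ'.S) : θ = θ' := by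
  cases θ; cases θ'; cases h1; cases h2; rfl

open Classical in
/-- A trace preserving map on a set with different traces extends to a trace preserving
permutation. -/
lemma exists_perm (F : Finset I) (S : Set (Set I)) (hS : ∀ x ∈ S, ∀ y ∈ S, Agree F x y → x = y)
    (g : Set I → Set I) (hg : Pres F g) :
    ∃ σ : Equiv.Perm (Set I), Pres F σ ∧ ∀ x ∈ S, σ x = g x := by
  let f : Set I → Set I := fun z =>
    if h : ∃ x ∈ S, Agree F x z then Equiv.swap h.choose (g h.choose) z else z
  have hf1 : ∀ z x, x ∈ S → Agree F x z → f z = Equiv.swap x (g x) z := by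
    intro z x hx hxz
    have h : ∃ x ∈ S, Agree F x z := ⟨x, hx, hxz⟩
    have e : h.choose = x := hS _ h.choose_spec.1 _ hx (h.choose_spec.2.trans hxz.symm)
    simp only [f, dif_pos h, e]
  have hsw : ∀ z x, Agree F x z → Agree F (Equiv.swap x (g x) z) z := by
    intro z x hxz
    by_cases h1 : z = x
    · subst h1
      rw [Equiv.swap_apply_left]; exact hg z
    by_cases h2 : z = g x
    · rw [h2, Equiv.swap_apply_right]; exact (hg x).symm
    · rw [Equiv.swap_apply_of_ne_of_ne h1 h2]; exact Agree.refl _ _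
  have hpres : Pres F f := by
    intro z
    by_cases h : ∃ x ∈ S, Agree F x z
    · obtain ⟨x, hx, hxz⟩ := h
      rw [hf1 z x hx hxz]
      exact hsw z x hxz
    · simp only [f, dif_neg h]; exact Agree.refl _ _
  have hinv : Function.Involutive f := by
    intro z
    by_cases h : ∃ x ∈ S, Agree F x z
    · obtain ⟨x, hx, hxz⟩ := h
      rw [hf1 (f z) x hx (hxz.trans (hpres z).symm), hf1 z x hx hxz, Equiv.swap_apply_self]
    · have : f z = z := by simp only [f, dif_neg h]
      rw [this, this]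
  refine ⟨hinv.toPerm f, hpres, ?_⟩
  intro x hx
  change f x = g x
  rw [hf1 x x hx (Agree.refl _ _), Equiv.swap_apply_left]

/-- Renaming and specialising. -/
lemma C.rename {θ : P I} {w v : W I} (h : C θ w v) : ∀ (F : Finset I) (ψ σ : Equiv.Perm (Set I))
    (_hψ : Pres F ψ) (_hσ : Pres F σ) (_hw : W.AllD (fun s => s ⊆ F) w) (_hF : θ.F ⊆ F)
    (hp : Pres θ.F σ)
    (_ha : W.AllA (fun x => x ∈ θ.S → ψ x = σ x) w), C (ren σ θ hp) (w.map ψ) (v.map σ) := by
  induction h with
  | refl θ w hr hT =>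
    intro F ψ σ hψ hσ hw hF hp ha
    have : W.map ψ w = W.map σ w := W.map_congr (W.AllA.imp (fun x hx => hx.1 hx.2) (W.AllA.and ha hT.2))
    rw [this]
    refine .refl _ _ (W.red_map σ.injective hr) ⟨W.AllD_map.2 hT.1, ?_⟩
    have hT2 := hT.2
    clear hr hT ha hw this
    induction w with
    | e => trivial
    | d s t => trivial
    | a x => exact ⟨x, hT2, rfl⟩
    | n u v ih1 ih2 => exact ⟨ih1 hT2.1, ih2 hT2.2⟩
  | soft θ s t x h1 h2 h3 =>
    intro F ψ σ hψ hσ hw hF hp ha
    exact .soft _ _ _ _ h1 ⟨x, h2, rfl⟩ (((hσ x).mono hw).trans h3 |> fun h => h)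
  | node θ θ' u v s r b hf hr h1 h2 h3 ih1 ih2 ih3 =>
    intro F ψ σ hψ hσ hw hF hp ha
    by_cases hF' : θ'.F ⊆ F
    · classical
      obtain ⟨σ', hσ', hσg⟩ := exists_perm F θ'.S
        (fun x hx y hy hxy => θ'.inj x hx y hy (hxy.mono hF'))
        (fun z => if z ∈ θ.S then σ z else ψ z) (by
          intro z
          by_cases hz : z ∈ θ.S
          · simp only [if_pos hz]; exact hσ z
          · simp only [if_neg hz]; exact hψ z)
      have hagr : ∀ x, (x ∈ θ.S → ψ x = σ x) → (x ∈ θ'.S → ψ x = σ' x) := by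
        intro x hx hx'
        rw [hσg x hx']
        by_cases hz : x ∈ θ.S
        · rw [if_pos hz]; exact hx hz
        · rw [if_neg hz]
      have i1 := ih1 F ψ σ' hψ hσ' hw.1 hF' (hσ'.mono hF') (ha.1.imp hagr)
      have i2 := ih2 F ψ σ' hψ hσ' hw.2 hF' (hσ'.mono hF') (ha.2.imp hagr)
      have hS : ∀ x ∈ θ.S, σ' x = σ x := by
        intro x hx
        rw [hσg x (hf.2 hx), if_pos hx]
      have i3 := ih3 F σ' σ hσ' hσ
        (W.AllD.mul h1.red_right h2.red_right (h1.allD hw.1) (h2.allD hw.2)) hF hp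
        (W.allA_of_forall hS _)
      rw [W.map_mul σ'.injective h1.red_right h2.red_right] at i3
      refine .node _ (ren σ' θ' (hσ'.mono hF')) _ _ _ _ _ ⟨hf.1, ?_⟩ ?_ i1 i2 i3
      · rintro _ ⟨x, hx, rfl⟩
        exact ⟨x, hf.2 hx, hS x hx⟩
      · exact W.red_map ψ.injective hr
    · have hns : ∀ s : Finset I, s ⊆ F → ¬ θ'.F ⊂ s := fun s hs h => hF' (h.1.trans hs)
      have e1 := h1.triv (hw.1.imp hns)
      have e2 := h2.triv (hw.2.imp hns)
      subst e1 e2
      rw [W.mul_of_red hr] at ih3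
      exact ih3 F ψ σ hψ hσ hw hF hp ha


/-- The permutation matches the centres of `θ1` with those of `θ2`. -/
def Adm (π : Equiv.Perm (Set I)) (θ1 θ2 : P I) : Prop :=
  ∀ x ∈ θ1.S, ∀ y ∈ θ2.S, Agree θ1.F x y → Agree θ2.F x y → π x = y

lemma exists_adm (θ1 θ2 : P I) (F : Finset I) (h1 : θ1.F ⊆ F) (h2 : θ2.F ⊆ F)
    (hF : ∀ i ∈ F, i ∈ θ1.F ∨ i ∈ θ2.F) :
    ∃ π : Equiv.Perm (Set I), Pres F π ∧ Adm π θ1 θ2 := by
  classical
  obtain ⟨π, hπ, hg⟩ := exists_perm F θ1.S (fun x hx y hy h => θ1.inj x hx y hy (h.mono h1))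
    (fun z => if h : ∃ y ∈ θ2.S, Agree F z y then h.choose else z) (by
      intro z
      by_cases h : ∃ y ∈ θ2.S, Agree F z y
      · simp only [dif_pos h]; exact h.choose_spec.2.symm
      · simp only [dif_neg h]; exact Agree.refl _ _)
  refine ⟨π, hπ, ?_⟩
  intro x hx y hy hxy1 hxy2
  have hxy : Agree F x y := fun i hi => (hF i hi).elim (hxy1 i) (hxy2 i)
  have h : ∃ y ∈ θ2.S, Agree F x y := ⟨y, hy, hxy⟩
  rw [hg x hx, dif_pos h]
  exact θ2.inj _ h.choose_spec.1 _ hy ((h.choose_spec.2.symm.trans hxy).mono h2)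

/-- The main statement about the word `w`. -/
def KeyAt (w : W I) : Prop := ∀ (θ1 θ2 : P I) (w1 w2 : W I) (π : Equiv.Perm (Set I)) (hp : Pres θ1.F π),
  Pres θ2.F π → Adm π θ1 θ2 → ¬ θ2.F ⊂ θ1.F → C θ1 w w1 → C θ2 w w2 →
  C (ren π θ1 hp) w2 (w1.map π)

lemma pres_one (F : Finset I) : Pres F ((1 : Equiv.Perm (Set I)) : Set I → Set I) :=
  fun x => Agree.refl _ x

lemma ren_one (θ : P I) : ren ((1 : Equiv.Perm (Set I)) : Set I → Set I) θ (pres_one _) = θ := by
  refine P.ext' rfl ?_
  change (fun x => x) '' θ.S = θ.S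
  simp

lemma map_one (w : W I) : w.map ((1 : Equiv.Perm (Set I)) : Set I → Set I) = w := W.map_id' w

lemma KeyAt.down {w : W I} (hk : KeyAt w) {θ θ' : P I} (hf : Fi θ' θ) {w' v : W I}
    (h' : C θ' w w') (h : C θ w v) : C θ w' v := by
  have := hk θ θ' v w' 1 (pres_one _) (pres_one _)
    (fun x hx y hy _ hxy => θ'.inj x (hf.2 hx) y hy hxy) (fun h => h.2 hf.1) h h'
  rwa [ren_one, map_one] at this

lemma C.triv' {θ : P I} {w v : W I} (h : C θ w v) (hw : InT θ w) : v = w :=
  h.triv (hw.1.imp fun _ hs h => h.2 hs)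

lemma KeyAt.uniq {w : W I} (hk : KeyAt w) {θ : P I} {v v' : W I} (h : C θ w v) (h' : C θ w v') :
    v = v' := (hk.down (Fi.refl θ) h' h).triv' h'.inT

lemma C.mul_red {θ : P I} {u v s r : W I} (h : W.Red (.n u v)) (h1 : C θ u s) (h2 : C θ v r) :
    C θ (.n u v) (W.mul s r) :=
  .node _ θ _ _ s r _ (Fi.refl _) h h1 h2 (.refl _ _ (W.red_mul h1.red_right h2.red_right)
    (InT.mul h1.red_right h2.red_right h1.inT h2.inT))

lemma C.e_refl (θ : P I) : C θ .e .e := .refl _ _ trivial ⟨trivial, trivial⟩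

/-- The subalgebra property. -/
lemma sub_aux (N : ℕ) (H : ∀ w : W I, W.Red w → W.wt w < N → KeyAt w) :
    ∀ (M : ℕ) (u t : W I), W.wt (.n u t) = M → W.Red (.n u t) → W.wt (.n u t) ≤ N →
    ∀ (θ : P I) (s b : W I), C θ u s → C θ (.n u t) b → C θ t (W.mul s b) := by
  intro M
  induction M using Nat.strong_induction_on with
  | _ M IH =>
  intro u t hM hr hN θ s b hs hb
  have hwu : W.wt u < N := by simp only [W.wt] at hN; omega
  rcases hb.inv_n rfl with ⟨rfl, hT⟩ | ⟨θ', s', r', hf, h1, h2, h3, h4⟩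
  · obtain ⟨hTu, hTt⟩ := hT.n
    have : s = u := hs.triv' hTu
    subst this
    rw [W.mul_n_self _ _ hr.2.2.1]
    exact .refl _ _ hr.2.1 hTt
  · have hs' : C θ s' s := (H u hr.1 hwu).down hf h1 hs
    refine h2.trans hf ?_
    have rs' := h1.red_right
    have rr' := h2.red_right
    rcases W.red_cases rs' rr' with h | h | h | ⟨t', h⟩ | h
    · subst h
      rw [hs'.e_left]
      simpa using h3
    · subst h
      rw [W.mul_e] at h3
      have : b = s := (H s' rs' (lt_of_le_of_lt h1.wt_le hwu)).uniq h3 hs'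
      subst this
      rw [W.mul_self]
      exact C.e_refl _
    · subst h
      rw [W.mul_self] at h3
      rw [h3.e_left]
      simpa using hs'
    · subst h
      rw [W.mul_n_self _ _ rr'.2.2.1] at h3
      exact C.mul_red rr' hs' h3
    · rw [W.mul_of_red h] at h3 h4
      exact IH _ (hM ▸ h4) s' r' rfl h (h4.le.trans hN) θ s b hs' h3

lemma prod_aux (N : ℕ) (H : ∀ w : W I, W.Red w → W.wt w < N → KeyAt w) {θ : P I} {u v s r : W I}
    (hu : W.wt u < N) (hv : W.wt v < N) (h1 : C θ u s) (h2 : C θ v r) :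
    C θ (W.mul u v) (W.mul s r) := by
  have ru := h1.red_left
  have rv := h2.red_left
  rcases W.red_cases ru rv with h | h | h | ⟨t, h⟩ | h
  · subst h
    rw [h1.e_left]; simpa using h2
  · subst h
    rw [h2.e_left]; simpa using h1
  · subst h
    rw [(H u ru hu).uniq h1 h2, W.mul_self, W.mul_self]
    exact C.e_refl _
  · subst h
    rw [W.mul_n_self _ _ rv.2.2.1]
    exact sub_aux N H _ u t rfl rv hv.le θ s r h1 h2
  · rw [W.mul_of_red h]
    exact C.mul_red h h1 h2

lemma Fi_ren {f : Set I → Set I} {θ θ' : P I} (h : Fi θ' θ) (hp : Pres θ.F f) (hp' : Pres θ'.F f) :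
    Fi (ren f θ' hp') (ren f θ hp) := ⟨h.1, Set.image_mono h.2⟩

lemma C.allD_right {θ : P I} {w v : W I} {F : Finset I} (h : C θ w v) (hF : θ.F ⊆ F) :
    W.AllD (fun s => s ⊆ F) v := h.inT.1.imp fun _ hs => hs.trans hF

theorem key : ∀ (N : ℕ) (w : W I), W.wt w = N → W.Red w → KeyAt w := by
  classical
  intro N
  induction N using Nat.strong_induction_on with
  | _ N IH =>
  intro w hN hr
  have H : ∀ w' : W I, W.Red w' → W.wt w' < N → KeyAt w' := fun w' h h' => IH _ h' w' rfl h
  intro θ1 θ2 w1 w2 π hp1 hp2 hA hF h1 h2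
  cases w with
  | e =>
    rw [h1.e_left, h2.e_left]
    exact C.e_refl _
  | a x =>
    obtain ⟨rfl, hx1⟩ := h1.a_left
    obtain ⟨rfl, hx2⟩ := h2.a_left
    have : π x = x := hA x hx1 x hx2 (Agree.refl _ _) (Agree.refl _ _)
    simp only [W.map, this]
    exact .refl _ _ trivial ⟨trivial, x, hx1, this⟩
  | d s t =>
    rcases h1.d_left with ⟨rfl, hs1⟩ | ⟨x, rfl, hs1, hx1, hax⟩
    · rcases h2.d_left with ⟨rfl, hs2⟩ | ⟨y, rfl, hs2, hy2, hay⟩
      · exact .refl _ _ trivial ⟨hs1, trivial⟩
      · exact absurd (lt_of_lt_of_le hs2 hs1) hF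
    · rcases h2.d_left with ⟨rfl, hs2⟩ | ⟨y, rfl, hs2, hy2, hay⟩
      · exact .soft _ _ _ _ hs1 ⟨x, hx1, rfl⟩ (((hp2 x).mono hs2).trans hax)
      · have hxy : Agree s x y := hax.trans hay.symm
        have : π x = y := hA x hx1 y hy2 (hxy.mono hs1.1) (hxy.mono hs2.1)
        simp only [W.map, this]
        exact .refl _ _ trivial ⟨trivial, x, hx1, this⟩
  | n u v =>
    rcases h1.inv_n rfl with ⟨rfl, hT1⟩ | ⟨θ1', s1, r1, hf1, hs1, hr1, hq1, hw1⟩
    · -- everything is protected by `θ1`
      have e2 : w2 = .n u v := h2.triv (hT1.1.imp fun s hs h => hF (lt_of_lt_of_le h hs))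
      subst e2
      have hT2 := h2.inT
      have e3 : W.map π (.n u v) = .n u v := by
        conv_rhs => rw [← W.map_id' (.n u v)]
        refine W.map_congr (W.AllA.imp ?_ (W.AllA.and hT1.2 hT2.2))
        intro x hx
        exact hA x hx.1 x hx.2 (Agree.refl _ _) (Agree.refl _ _)
      rw [e3]
      refine .refl _ _ hr ⟨hT1.1, W.AllA.imp ?_ (W.AllA.and hT1.2 hT2.2)⟩
      intro x hx
      exact ⟨x, hx.1, hA x hx.1 x hx.2 (Agree.refl _ _) (Agree.refl _ _)⟩
    · rcases h2.inv_n rfl with ⟨rfl, hT2⟩ | ⟨θ2', s2, r2, hf2, hs2, hr2, hq2, hw2⟩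
      · -- everything is protected by `θ2`
        have hP : Pres (θ1.F ∪ θ2.F) π := by
          intro x i hi
          rcases Finset.mem_union.1 hi with h | h
          · exact hp1 x i h
          · exact hp2 x i h
        have := h1.rename (θ1.F ∪ θ2.F) 1 π (pres_one _) hP
          (hT2.1.imp fun _ hs => hs.trans Finset.subset_union_right) Finset.subset_union_left hp1
          (hT2.2.imp fun x hx2 hx1 => (hA x hx1 x hx2 (Agree.refl _ _) (Agree.refl _ _)).symm)
        rwa [map_one] at this
      · have hwu : W.wt u < N := by rw [← hN]; simp only [W.wt]; omega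
        have hwv : W.wt v < N := by rw [← hN]; simp only [W.wt]; omega
        have ru := hr.1
        have rv := hr.2.1
        have c1 : θ1'.F ⊆ θ1'.F ∪ θ2'.F := Finset.subset_union_left
        have c2 : θ2'.F ⊆ θ1'.F ∪ θ2'.F := Finset.subset_union_right
        by_cases hF' : θ2'.F ⊂ θ1'.F
        · obtain ⟨π', hπ', hA'⟩ := exists_adm θ2' θ1' (θ1'.F ∪ θ2'.F) c2 c1
            (fun i hi => (Finset.mem_union.1 hi).symm)
          have k1 := H u ru hwu θ2' θ1' s2 s1 π' (hπ'.mono c2) (hπ'.mono c1) hA'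
            (fun h => lt_asymm h hF') hs2 hs1
          have k2 := H v rv hwv θ2' θ1' r2 r1 π' (hπ'.mono c2) (hπ'.mono c1) hA'
            (fun h => lt_asymm h hF') hr2 hr1
          have k3 := prod_aux N H (lt_of_le_of_lt hs1.wt_le hwu) (lt_of_le_of_lt hr1.wt_le hwv) k1 k2
          rw [← W.map_mul π'.injective hs2.red_right hr2.red_right] at k3
          have d1 : θ2.F ⊆ θ1'.F ∪ θ2'.F := hf2.1.trans c2
          have d2 : θ1.F ⊆ θ1'.F ∪ θ2'.F := hf1.1.trans c1
          have k4 := hq2.rename (θ1'.F ∪ θ2'.F) π' π' hπ' hπ'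
            (W.AllD.mul hs2.red_right hr2.red_right (hs2.allD_right c2) (hr2.allD_right c2)) d1
            (hπ'.mono d1) (W.allA_of_forall (fun _ _ => rfl) _)
          have k5 := k3.trans (Fi_ren hf2 (hπ'.mono d1) (hπ'.mono c2)) k4
          have hh1 : Pres θ1.F (π.trans π' : Equiv.Perm (Set I)) :=
            fun x => ((hπ'.mono d2) (π x)).trans (hp1 x)
          have hh2 : Pres θ2.F (π.trans π' : Equiv.Perm (Set I)) :=
            fun x => ((hπ'.mono d1) (π x)).trans (hp2 x)
          have k6 := H _ (W.red_mul hs1.red_right hr1.red_right) (hN ▸ hw1) θ1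
            (ren π' θ2 (hπ'.mono d1)) w1 (w2.map π') (π.trans π') hh1 hh2 (by
              rintro x hx _ ⟨y, hy, rfl⟩ a1 a2
              change π' (π x) = π' y
              rw [hA x hx y hy (a1.trans ((hπ'.mono d2) y)) (a2.trans ((hπ'.mono d1) y))])
            hF hq1 k5
          have k7 := k6.rename (θ1'.F ∪ θ2'.F) π'.symm π'.symm hπ'.symm hπ'.symm
            (by rw [W.AllD_map]; exact h2.allD_right d1) d2 (hπ'.symm.mono d2)
            (W.allA_of_forall (fun _ _ => rfl) _)
          rw [W.map_map, W.map_map] at k7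
          have e1 : (fun x => π'.symm (π' x)) = fun x => x := by
            funext x; exact Equiv.symm_apply_apply _ _
          have e2 : (fun x => π'.symm ((π.trans π') x)) = π := by
            funext x; exact Equiv.symm_apply_apply _ _
          rw [e1, e2, W.map_id'] at k7
          have e3 : ren (⇑π'.symm) (ren (⇑(π.trans π')) θ1 hh1) (hπ'.symm.mono d2) = ren π θ1 hp1 := by
            refine P.ext' rfl ?_
            change π'.symm '' ((π.trans π') '' θ1.S) = π '' θ1.S
            rw [Set.image_image]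
            exact congrArg (fun f => f '' θ1.S) e2
          rwa [e3] at k7
        · obtain ⟨π', hπ', hA'⟩ := exists_adm θ1' θ2' (θ1'.F ∪ θ2'.F) c1 c2
            (fun i hi => Finset.mem_union.1 hi)
          have k1 := H u ru hwu θ1' θ2' s1 s2 π' (hπ'.mono c1) (hπ'.mono c2) hA' hF' hs1 hs2
          have k2 := H v rv hwv θ1' θ2' r1 r2 π' (hπ'.mono c1) (hπ'.mono c2) hA' hF' hr1 hr2
          have k3 := prod_aux N H (lt_of_le_of_lt hs2.wt_le hwu) (lt_of_le_of_lt hr2.wt_le hwv) k1 k2
          rw [← W.map_mul π'.injective hs1.red_right hr1.red_right] at k3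
          have d1 : θ2.F ⊆ θ1'.F ∪ θ2'.F := hf2.1.trans c2
          have d2 : θ1.F ⊆ θ1'.F ∪ θ2'.F := hf1.1.trans c1
          have k4 := hq1.rename (θ1'.F ∪ θ2'.F) π' π' hπ' hπ'
            (W.AllD.mul hs1.red_right hr1.red_right (hs1.allD_right c1) (hr1.allD_right c1)) d2
            (hπ'.mono d2) (W.allA_of_forall (fun _ _ => rfl) _)
          have k5 := k3.trans (Fi_ren hf1 (hπ'.mono d2) (hπ'.mono c1)) k4
          have hh1 : Pres θ1.F (π'.symm.trans π : Equiv.Perm (Set I)) :=
            fun x => (hp1 (π'.symm x)).trans ((hπ'.symm.mono d2) x)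
          have hh2 : Pres θ2.F (π'.symm.trans π : Equiv.Perm (Set I)) :=
            fun x => (hp2 (π'.symm x)).trans ((hπ'.symm.mono d1) x)
          have k6 := H _ (W.red_mul hs2.red_right hr2.red_right) (hN ▸ hw2)
            (ren π' θ1 (hπ'.mono d2)) θ2 (w1.map π') w2 (π'.symm.trans π) hh1 hh2 (by
              rintro _ ⟨x, hx, rfl⟩ y hy a1 a2
              change π (π'.symm (π' x)) = y
              rw [Equiv.symm_apply_apply]
              exact hA x hx y hy (((hπ'.mono d2) x).symm.trans a1)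
                (((hπ'.mono d1) x).symm.trans a2))
            hF k5 hq2
          rw [W.map_map] at k6
          have e2 : (fun x => (π'.symm.trans π) (π' x)) = π := by
            funext x; change π (π'.symm (π' x)) = π x; rw [Equiv.symm_apply_apply]
          rw [e2] at k6
          have e3 : ren (⇑(π'.symm.trans π)) (ren π' θ1 (hπ'.mono d2)) hh1 = ren π θ1 hp1 := by
            refine P.ext' rfl ?_
            change (π'.symm.trans π) '' (π' '' θ1.S) = π '' θ1.S
            rw [Set.image_image]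
            exact congrArg (fun f => f '' θ1.S) e2
          rwa [e3] at k6

theorem keyAt {w : W I} (h : W.Red w) : KeyAt w := key _ w rfl h

theorem C.mul {θ : P I} {u v s r : W I} (h1 : C θ u s) (h2 : C θ v r) :
    C θ (W.mul u v) (W.mul s r) :=
  prod_aux (max (W.wt u) (W.wt v) + 1) (fun _ h _ => keyAt h)
    (Nat.lt_succ_of_le (le_max_left _ _)) (Nat.lt_succ_of_le (le_max_right _ _)) h1 h2


lemma InT.mono {θ θ' : P I} {w : W I} (h : InT θ w) (hf : Fi θ' θ) : InT θ' w :=
  ⟨h.1.imp fun _ hs => hs.trans hf.1, h.2.imp fun _ hx => hf.2 hx⟩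

open Classical in
lemma exists_sep (S : Set (Set I)) (hS : S.Finite) :
    ∃ F : Finset I, ∀ x ∈ S, ∀ y ∈ S, Agree F x y → x = y := by
  refine ⟨hS.toFinset.biUnion fun x => hS.toFinset.biUnion fun y =>
    if h : ∃ i, ¬ (i ∈ x ↔ i ∈ y) then {h.choose} else ∅, ?_⟩
  intro x hx y hy hxy
  by_contra hne
  have h : ∃ i, ¬ (i ∈ x ↔ i ∈ y) := by
    by_contra hcon
    push Not at hcon
    exact hne (Set.ext hcon)
  refine h.choose_spec (hxy _ ?_)
  rw [Finset.mem_biUnion]
  refine ⟨x, hS.mem_toFinset.2 hx, ?_⟩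
  rw [Finset.mem_biUnion]
  refine ⟨y, hS.mem_toFinset.2 hy, ?_⟩
  rw [dif_pos h]
  exact Finset.mem_singleton_self _

/-- The parts of a word. -/
lemma exists_supp (w : W I) : ∃ (F : Finset I) (S : Set (Set I)), S.Finite ∧
    W.AllD (fun s => s ⊆ F) w ∧ W.AllA (fun x => x ∈ S) w := by
  classical
  induction w with
  | e => exact ⟨∅, ∅, Set.finite_empty, trivial, trivial⟩
  | d s t => exact ⟨s, ∅, Set.finite_empty, subset_rfl, trivial⟩
  | a x => exact ⟨∅, {x}, Set.finite_singleton x, trivial, rfl⟩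
  | n u v ih1 ih2 =>
    obtain ⟨F1, S1, f1, a1, b1⟩ := ih1
    obtain ⟨F2, S2, f2, a2, b2⟩ := ih2
    exact ⟨F1 ∪ F2, S1 ∪ S2, f1.union f2,
      ⟨a1.imp fun _ h => h.trans Finset.subset_union_left,
        a2.imp fun _ h => h.trans Finset.subset_union_right⟩,
      ⟨b1.imp fun _ h => Or.inl h, b2.imp fun _ h => Or.inr h⟩⟩

lemma exists_finer (θ1 θ2 : P I) (w : W I) : ∃ θ : P I, Fi θ θ1 ∧ Fi θ θ2 ∧ InT θ w := by
  classical
  obtain ⟨F, S, hS, h1, h2⟩ := exists_supp w
  have hfin : (θ1.S ∪ θ2.S ∪ S).Finite := (θ1.fin.union θ2.fin).union hS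
  obtain ⟨F', hF'⟩ := exists_sep _ hfin
  refine ⟨⟨F ∪ F' ∪ (θ1.F ∪ θ2.F), θ1.S ∪ θ2.S ∪ S, fun x hx y hy h => hF' x hx y hy
    (h.mono ?_), hfin⟩, ⟨?_, ?_⟩, ⟨?_, ?_⟩, ⟨h1.imp ?_, h2.imp ?_⟩⟩
  · exact Finset.subset_union_right.trans Finset.subset_union_left
  · exact Finset.subset_union_left.trans Finset.subset_union_right
  · exact Set.subset_union_left.trans Set.subset_union_left
  · exact Finset.subset_union_right.trans Finset.subset_union_right
  · exact Set.subset_union_right.trans Set.subset_union_left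
  · exact fun s hs => (hs.trans Finset.subset_union_left).trans Finset.subset_union_left
  · exact fun x hx => Or.inr hx

/-- The trivial parameter with finite set `F`. -/
def bot (F : Finset I) : P I where
  F := F
  S := ∅
  inj := by simp
  fin := Set.finite_empty

/-- The space: reduced words. -/
def G (I : Type) : Type := {w : W I // W.Red w}

/-- The basic open sets. -/
def Nb (θ : P I) (w : G I) : Set (G I) := {w' | C θ w'.1 w.1}

instance : TopologicalSpace (G I) where
  IsOpen O := ∀ w ∈ O, ∃ θ : P I, InT θ w.1 ∧ Nb θ w ⊆ O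
  isOpen_univ := by
    intro w _
    obtain ⟨θ, _, _, h⟩ := exists_finer (bot ∅) (bot ∅) w.1
    exact ⟨θ, h, Set.subset_univ _⟩
  isOpen_inter := by
    rintro O1 O2 h1 h2 w ⟨w1, w2⟩
    obtain ⟨θ1, i1, s1⟩ := h1 w w1
    obtain ⟨θ2, i2, s2⟩ := h2 w w2
    obtain ⟨θ, f1, f2, i⟩ := exists_finer θ1 θ2 w.1
    refine ⟨θ, i, fun w' hw' => ⟨s1 ?_, s2 ?_⟩⟩
    · exact C.trans hw' f1 (.refl _ _ w.2 i1)
    · exact C.trans hw' f2 (.refl _ _ w.2 i2)
  isOpen_sUnion := by
    rintro 𝒪 h w ⟨O, hO, hw⟩
    obtain ⟨θ, i, s⟩ := h O hO w hw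
    exact ⟨θ, i, s.trans (Set.subset_sUnion_of_mem hO)⟩

lemma isOpen_iff' {O : Set (G I)} : IsOpen O ↔ ∀ w ∈ O, ∃ θ : P I, InT θ w.1 ∧ Nb θ w ⊆ O :=
  Iff.rfl

lemma isOpen_Nb (θ : P I) (w : G I) : IsOpen (Nb θ w) := by
  rw [isOpen_iff']
  intro w' hw'
  obtain ⟨θ', f, _, i⟩ := exists_finer θ θ w'.1
  exact ⟨θ', i, fun w'' hw'' => C.trans hw'' f hw'⟩

lemma isClosed_Nb (θ : P I) (w : G I) : IsClosed (Nb θ w) := by
  rw [← isOpen_compl_iff, isOpen_iff']
  intro w' hw'
  obtain ⟨θ', f, _, i⟩ := exists_finer θ θ w'.1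
  refine ⟨θ', i, fun w'' hw'' hcon => hw' ?_⟩
  exact (keyAt w''.2).down f hw'' hcon

lemma mem_Nb {θ : P I} {w : G I} (h : InT θ w.1) : w ∈ Nb θ w := .refl _ _ w.2 h

/-- Multiplication. -/
noncomputable def m (u v : G I) : G I := ⟨W.mul u.1 v.1, W.red_mul u.2 v.2⟩

/-- The unit. -/
def one : G I := ⟨.e, trivial⟩

lemma m_m (u v : G I) : m u (m u v) = v := Subtype.ext (W.mul_mul_cancel u.2 v.2)

lemma m_self (u : G I) : m u u = one := Subtype.ext (W.mul_self u.1)

lemma m_one (u : G I) : m u one = u := Subtype.ext (W.mul_e u.1)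

lemma continuous_m : Continuous fun p : G I × G I => m p.1 p.2 := by
  rw [continuous_def]
  intro O hO
  rw [isOpen_prod_iff]
  intro u v huv
  obtain ⟨θ0, i0, s0⟩ := isOpen_iff'.1 hO _ huv
  obtain ⟨θ, f, _, i⟩ := exists_finer θ0 θ0 (.n u.1 v.1)
  refine ⟨Nb θ u, Nb θ v, isOpen_Nb _ _, isOpen_Nb _ _, mem_Nb i.n.1, mem_Nb i.n.2, ?_⟩
  rintro ⟨u', v'⟩ ⟨hu', hv'⟩
  refine s0 ?_
  have h : C θ (W.mul u'.1 v'.1) (W.mul u.1 v.1) := C.mul hu' hv'
  exact h.trans f (.refl _ _ (W.red_mul u.2 v.2) i0)

lemma nb_sep {u v : G I} (huv : u ≠ v) : ∃ θ : P I, InT θ u.1 ∧ v ∉ Nb θ u := by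
  obtain ⟨θ, _, _, i⟩ := exists_finer (bot ∅) (bot ∅) (.n u.1 v.1)
  refine ⟨θ, i.n.1, fun h => huv ?_⟩
  exact Subtype.ext (C.triv' h i.n.2)

instance : T1Space (G I) := by
  refine t1Space_iff_exists_open.2 ?_
  intro u v huv
  obtain ⟨θ, i, h⟩ := nb_sep huv
  exact ⟨Nb θ u, isOpen_Nb _ _, mem_Nb i, h⟩

lemma basis_clopen : TopologicalSpace.IsTopologicalBasis {s : Set (G I) | IsClopen s} := by
  refine TopologicalSpace.isTopologicalBasis_of_isOpen_of_nhds (fun u hu => hu.2) ?_
  intro w O hw hO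
  obtain ⟨θ, i, s⟩ := isOpen_iff'.1 hO w hw
  exact ⟨Nb θ w, ⟨isClosed_Nb _ _, isOpen_Nb _ _⟩, mem_Nb i, s⟩


/-- The letter standing for a set. -/
def lA (x : Set I) : G I := ⟨.a x, trivial⟩

/-- The letter standing for a finite partial function. -/
def lD (p : Finset I × Finset I) : G I := ⟨.d p.1 p.2, trivial⟩

lemma lA_injective : Function.Injective (lA : Set I → G I) := by
  intro x y h
  have := congrArg Subtype.val h
  simpa [lA] using this

lemma lA_mem_closure [Infinite I] (x : Set I) : lA x ∈ closure (Set.range (lD : _ → G I)) := by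
  classical
  rw [mem_closure_iff]
  intro O hO hx
  obtain ⟨θ, i, s⟩ := isOpen_iff'.1 hO _ hx
  obtain ⟨j, hj⟩ := Infinite.exists_notMem_finset θ.F
  refine ⟨lD (insert j θ.F, (insert j θ.F).filter (· ∈ x)), s ?_, Set.mem_range_self _⟩
  refine .soft _ _ _ _ (Finset.ssubset_insert hj) i.2 ?_
  intro k hk
  constructor
  · intro h
    exact Finset.mem_coe.2 (Finset.mem_filter.2 ⟨hk, h⟩)
  · intro h
    exact (Finset.mem_filter.1 (Finset.mem_coe.1 h)).2

lemma exists_card_bound (w : W I) : ∃ N : ℕ, W.AllD (fun s => s.card ≤ N) w := by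
  induction w with
  | e => exact ⟨0, trivial⟩
  | d s t => exact ⟨s.card, le_rfl⟩
  | a x => exact ⟨0, trivial⟩
  | n u v ih1 ih2 =>
    obtain ⟨N1, h1⟩ := ih1
    obtain ⟨N2, h2⟩ := ih2
    exact ⟨max N1 N2, h1.imp fun _ h => h.trans (le_max_left _ _),
      h2.imp fun _ h => h.trans (le_max_right _ _)⟩

lemma inter_Nb_one (F : ℕ → Finset I) (hF : ∀ n, (F n).card = n) :
    ⋂ n, Nb (bot (F n)) (one : G I) = {one} := by
  ext w
  simp only [Set.mem_iInter, Set.mem_singleton_iff]
  constructor
  · intro h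
    obtain ⟨N, hN⟩ := exists_card_bound w.1
    have h1 := h N
    refine Subtype.ext (C.triv h1 (hN.imp ?_)).symm
    intro s hs hlt
    have : (bot (F N)).F.card < s.card := Finset.card_lt_card hlt
    simp only [bot, hF] at this
    omega
  · rintro rfl n
    exact mem_Nb ⟨trivial, trivial⟩

/-! ### Definitions used in the statement -/

/-- A space `X` is rectifiable: there are a point `e` and a homeomorphism `φ` of `X × X` onto itself
which maps every `{x} × X` onto itself and every `(x, x)` to `(x, e)`. -/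
def Rectifiable (X : Type) [TopologicalSpace X] : Prop :=
  ∃ (e : X) (φ : (X × X) ≃ₜ (X × X)),
    (∀ x : X, φ '' ({x} ×ˢ (Set.univ : Set X)) = {x} ×ˢ (Set.univ : Set X)) ∧
    ∀ x : X, φ (x, x) = (x, e)

/-- Countable pseudocharacter: every point is the intersection of countably many open sets. -/
def CountablePseudocharacter (X : Type) [TopologicalSpace X] : Prop :=
  ∀ x : X, ∃ U : ℕ → Set X, (∀ n, IsOpen (U n)) ∧ ⋂ n, U n = {x}

/-- Submetrizable: there is a continuous bijection onto a metrizable space. -/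
def Submetrizable (X : Type) [TopologicalSpace X] : Prop :=
  ∃ (Y : Type) (_ : TopologicalSpace Y), TopologicalSpace.MetrizableSpace Y ∧
    ∃ f : X → Y, Continuous f ∧ Function.Bijective f

lemma rectifiable_G : Rectifiable (G I) := by
  have hinv : Function.Involutive (fun p : G I × G I => (p.1, m p.1 p.2)) := by
    rintro ⟨u, v⟩
    simp [m_m]
  have hc : Continuous (fun p : G I × G I => (p.1, m p.1 p.2)) :=
    continuous_fst.prodMk continuous_m
  refine ⟨one, ⟨hinv.toPerm _, hc, hc⟩, ?_, ?_⟩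
  · intro x
    ext ⟨u, v⟩
    simp only [Set.mem_image, Set.mem_prod, Set.mem_singleton_iff, Set.mem_univ, and_true]
    constructor
    · rintro ⟨⟨u', v'⟩, h, h'⟩
      have := congrArg Prod.fst h'
      change u' = u at this
      exact this ▸ h
    · rintro rfl
      exact ⟨(u, m u v), rfl, hinv (u, v)⟩
  · intro x
    change (x, m x x) = (x, one)
    rw [m_self]

lemma pseudo_G [Infinite I] : CountablePseudocharacter (G I) := by
  intro x
  choose F hF using fun n : ℕ => Infinite.exists_subset_card_eq I n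
  refine ⟨fun n => (fun y => m x y) ⁻¹' Nb (bot (F n)) one, fun n => ?_, ?_⟩
  · exact (isOpen_Nb _ _).preimage (continuous_m.comp (continuous_const.prodMk continuous_id))
  · rw [← Set.preimage_iInter, inter_Nb_one F hF]
    ext y
    simp only [Set.mem_preimage, Set.mem_singleton_iff]
    constructor
    · intro h
      have := m_m x y
      rw [h, m_one] at this
      exact this.symm
    · rintro rfl
      exact m_self _

lemma not_submetrizable_G : ¬ Submetrizable (G ℝ) := by
  rintro ⟨Y, _, hY, f, hf, hbij⟩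
  have hcl : ∀ x : Set ℝ, ∃ p : ℕ → Finset ℝ × Finset ℝ,
      Filter.Tendsto (fun n => f (lD (p n))) Filter.atTop (𝓝 (f (lA x))) := by
    intro x
    have h1 : f (lA x) ∈ closure (Set.range (fun p => f (lD p))) := by
      have := image_closure_subset_closure_image hf ⟨_, lA_mem_closure x, rfl⟩
      rwa [← Set.range_comp] at this
    obtain ⟨y, hy, hy'⟩ := mem_closure_iff_seq_limit.1 h1
    choose p hp using hy
    exact ⟨p, by simpa only [hp] using hy'⟩
  choose p hp using hcl
  have hinj : Function.Injective p := by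
    intro x y hxy
    have h1 := hp x
    rw [hxy] at h1
    exact lA_injective (hbij.1 (tendsto_nhds_unique h1 (hp y)))
  have hcard := Cardinal.mk_le_of_injective hinj
  have e1 : Cardinal.mk (Finset ℝ × Finset ℝ) = Cardinal.continuum := by
    rw [Cardinal.mk_prod, Cardinal.lift_id, Cardinal.mk_finset_of_infinite, Cardinal.mk_real,
      Cardinal.continuum_mul_self]
  have e2 : Cardinal.mk (ℕ → Finset ℝ × Finset ℝ) = Cardinal.continuum := by
    rw [← Cardinal.power_def, e1, Cardinal.mk_nat, Cardinal.continuum_power_aleph0]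
  rw [e2, Cardinal.mk_set, Cardinal.mk_real] at hcard
  exact absurd hcard (not_le.2 (Cardinal.cantor _))

/-- There is a zero-dimensional Hausdorff (hence regular, even Tychonoff) rectifiable space of
countable pseudocharacter which is not submetrizable. -/
theorem result : ∃ (X : Type) (_ : TopologicalSpace X), T35Space X ∧
    TopologicalSpace.IsTopologicalBasis {s : Set X | IsClopen s} ∧ Rectifiable X ∧
    CountablePseudocharacter X ∧ ¬ Submetrizable X := by
  refine ⟨G ℝ, inferInstance, ?_, basis_clopen, rectifiable_G, pseudo_G, not_submetrizable_G⟩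
  have := CompletelyRegularSpace.of_isTopologicalBasis_clopens (basis_clopen (I := ℝ))
  exact {}

end Pool.Agent.Results.MP_a8ba19_gt.NotSubmetrizable
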